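import Pool.Agent.Helper418_AC.AC10

/-!
# Antichains of free pmp actions of nonamenable groups

For every countable nonamenable group `Γ` the class of free measure preserving actions of `Γ` on
the standard non-atomic probability space contains an antichain, for measure weak containment, of
the size of the continuum, and its width is the continuum.

The antichain consists of the actions `t * Bernoulli + (1 - t) * Bernoulli`, `0 < t < 1/2`; the
measures of the almost invariant sets of such an action accumulate only at `0, t, 1 - t, 1`.
-/

set_option autoImplicit false

namespace Pool.Agent.Results.MP_651bcb_an.ContinuumAntichain

open MeasureTheory Helper418AC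

/-- For every countable nonamenable group the width of the class of free pmp actions is the
continuum, and the supremum is attained. -/
theorem result (Γ : Type) [Group Γ] [Countable Γ] (h : ¬ Amenable Γ)
    (X : Type) [MeasurableSpace X] [StandardBorelSpace X] (μ : Measure X)
    [IsProbabilityMeasure μ] [NullSingletonClass μ] :
    (∃ S : Set (PmpAction Γ X μ), IsAntichainFree S ∧ Cardinal.mk S = Cardinal.continuum) ∧
      width Γ X μ = Cardinal.continuum :=
  ⟨exists_antichain Γ h X μ, width_eq Γ h X μ⟩

end Pool.Agent.Results.MP_651bcb_an.ContinuumAntichain
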